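import Pool.Agent.X63.WheelMV

/-!
# Outer mutual-visibility number under vertex deletion

No affine bound `μ_o(G - x) ≤ a μ_o(G) + b` holds: there are connected graphs `G` with
`μ_o(G) ≤ 6` and a vertex `x` such that `G - x` is connected and `μ_o(G - x)` is arbitrarily large.
-/

namespace X63.WheelMV

open SimpleGraph

theorem G_reach (K : ℕ) (v : Vx K) : (G K).Reachable (rim ⟨0, by omega⟩) v := by
  have hrim : ∀ p : Fin (10 * K + 1), (G K).Reachable (rim ⟨0, by omega⟩) (rim p) := by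
    intro p
    obtain ⟨w, -⟩ := rim_walk' K ⟨0, by omega⟩ p p.val (by simp)
    exact ⟨w⟩
  rcases v with p | ⟨i, y⟩ | ⟨⟩
  · exact hrim p
  · have hy := y.isLt
    obtain ⟨w, -⟩ := pt_walk K i 0 (y.val + 1) (by omega)
    rw [zero_add, pt_sp, pt_zero] at w
    exact (hrim _).trans ⟨w⟩
  · obtain ⟨w, -⟩ := pt_walk K 0 0 (10 * K + 2) (by omega)
    rw [pt_zero, pt_top K 0 (0 + (10 * K + 2)) (by omega)] at w
    exact (hrim _).trans ⟨w⟩

theorem G_connected (K : ℕ) : (G K).Connected := by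
  have : Nonempty (Vx K) := ⟨hub K⟩
  refine SimpleGraph.Connected.mk ?_
  intro u v
  exact (G_reach K u).symm.trans (G_reach K v)

/-- the graph without its hub. -/
abbrev H (K : ℕ) : SimpleGraph ({hub K}ᶜ : Set (Vx K)) := (G K).induce ({hub K}ᶜ : Set (Vx K))

abbrev rimH {K : ℕ} (p : Fin (10 * K + 1)) : ({hub K}ᶜ : Set (Vx K)) := ⟨rim p, by simp⟩
abbrev spH {K : ℕ} (i : Fin (K + 1)) (y : Fin (10 * K + 1)) : ({hub K}ᶜ : Set (Vx K)) :=
  ⟨sp i y, by simp⟩

theorem H_reach_rim (K : ℕ) (n : ℕ) (hn : n < 10 * K + 1) :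
    (H K).Reachable (rimH ⟨0, by omega⟩) (rimH ⟨n, hn⟩) := by
  induction n with
  | zero => exact Reachable.refl _
  | succ n ih =>
    refine (ih (by omega)).trans (Adj.reachable ?_)
    exact Or.inl rfl

theorem H_reach_sp (K : ℕ) (i : Fin (K + 1)) (n : ℕ) (hn : n < 10 * K + 1) :
    (H K).Reachable (rimH ⟨0, by omega⟩) (spH i ⟨n, hn⟩) := by
  have hi := i.isLt
  induction n with
  | zero =>
    refine (H_reach_rim K (10 * i.val) (by omega)).trans (Adj.reachable ?_)
    exact Or.inl ⟨rfl, rfl⟩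
  | succ n ih =>
    refine (ih (by omega)).trans (Adj.reachable ?_)
    exact Or.inl ⟨rfl, rfl⟩

theorem H_connected (K : ℕ) : (H K).Connected := by
  have : Nonempty ({hub K}ᶜ : Set (Vx K)) := ⟨rimH ⟨0, by omega⟩⟩
  have key : ∀ v : ({hub K}ᶜ : Set (Vx K)), (H K).Reachable (rimH ⟨0, by omega⟩) v := by
    rintro ⟨p | ⟨i, y⟩ | ⟨⟩, hv⟩
    · exact H_reach_rim K p.val p.isLt
    · exact H_reach_sp K i y.val y.isLt
    · exact absurd rfl hv
  refine SimpleGraph.Connected.mk ?_
  intro u v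
  exact (key u).symm.trans (key v)

theorem H_large (K : ℕ) (hK : 1 ≤ K) : K + 1 ≤ muO (H K) := by
  classical
  set tip : Fin (K + 1) → ({hub K}ᶜ : Set (Vx K)) := fun i => spH i ⟨10 * K, by omega⟩ with htip
  have hinj : Function.Injective tip := by
    intro i j h
    have h1 : sp i ⟨10 * K, by omega⟩ = sp (K := K) j ⟨10 * K, by omega⟩ := congrArg Subtype.val h
    simp only [Sum.inr.injEq, Sum.inl.injEq, Prod.mk.injEq] at h1
    exact h1.1
  have hcard : (Finset.univ.image tip).card = K + 1 := by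
    rw [Finset.card_image_of_injective _ hinj]
    simp
  rw [← hcard]
  apply le_muO
  apply outerMV_of_leaves _ (H_connected K)
  intro z hz
  rw [Finset.mem_image] at hz
  obtain ⟨i, -, rfl⟩ := hz
  have key : ∀ a, (H K).Adj (tip i) a → a = spH i ⟨10 * K - 1, by omega⟩ := by
    rintro ⟨p | ⟨j, y⟩ | ⟨⟩, hv⟩ h
    · exfalso
      rcases h with h | h
      · exact h
      · have h2 : (10 * K : ℕ) = 0 := h.2
        omega
    · rcases h with h | h
      · exfalso
        have h2 : y.val = 10 * K + 1 := h.2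
        have := y.isLt
        omega
      · obtain ⟨h1, h2⟩ := h
        subst h1
        have h3 : 10 * K = y.val + 1 := h2
        have h4 : y = ⟨10 * K - 1, by omega⟩ := Fin.ext (show y.val = 10 * K - 1 by omega)
        apply Subtype.ext
        show sp j y = sp j ⟨10 * K - 1, by omega⟩
        rw [h4]
    · exact absurd rfl hv
  intro a b ha hb
  rw [key a ha, key b hb]

end X63.WheelMV

namespace Pool.Agent.Results.MP_a310d2_co.HubDeletion

open X63.WheelMV

/-- No constants `a, b` bound `μ_o(G - x)` by `a μ_o(G) + b`; in fact `μ_o(G - x)` is unbounded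
on graphs with `μ_o(G) ≤ 6`. -/
theorem result :
    (∀ a b : ℝ, ∃ (V : Type) (_ : Fintype V) (G : SimpleGraph V) (x : V),
      G.Connected ∧ (G.induce ({x}ᶜ : Set V)).Connected ∧
        a * (muO G : ℝ) + b < (muO (G.induce ({x}ᶜ : Set V)) : ℝ)) ∧
    (∀ k : ℕ, ∃ (V : Type) (_ : Fintype V) (G : SimpleGraph V) (x : V),
      G.Connected ∧ (G.induce ({x}ᶜ : Set V)).Connected ∧
        muO G ≤ 6 ∧ k ≤ muO (G.induce ({x}ᶜ : Set V))) := by
  constructor
  · intro a b
    obtain ⟨K, hK⟩ := exists_nat_gt (6 * |a| + |b|)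
    refine ⟨Vx (K + 1), inferInstance, G (K + 1), hub (K + 1), G_connected _, H_connected _, ?_⟩
    have h1 : (muO (G (K + 1)) : ℝ) ≤ 6 := by exact_mod_cast muO_G_le (K + 1)
    have h2 : (K : ℝ) + 1 + 1 ≤ (muO (H (K + 1)) : ℝ) := by
      exact_mod_cast H_large (K + 1) (by omega)
    have h3 : a * (muO (G (K + 1)) : ℝ) ≤ |a| * 6 := by
      calc a * (muO (G (K + 1)) : ℝ) ≤ |a| * (muO (G (K + 1)) : ℝ) :=
            mul_le_mul_of_nonneg_right (le_abs_self a) (Nat.cast_nonneg _)
        _ ≤ |a| * 6 := mul_le_mul_of_nonneg_left h1 (abs_nonneg a)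
    have h4 := le_abs_self b
    have h5 : a * (muO (G (K + 1)) : ℝ) + b < (muO (H (K + 1)) : ℝ) := by linarith
    exact h5
  · intro k
    refine ⟨Vx (k + 1), inferInstance, G (k + 1), hub (k + 1), G_connected _, H_connected _,
      muO_G_le _, ?_⟩
    have := H_large (k + 1) (by omega)
    exact (by omega : k ≤ k + 1 + 1).trans this

end Pool.Agent.Results.MP_a310d2_co.HubDeletion
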